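import Pool.Agent.Helper97.QC.Defs
import Pool.Agent.Helper97.CB.Data

/-!
# Fibrations in rational curves in terms of forms
-/

set_option autoImplicit false

namespace Pool.Agent.Helper97.QC

open MvPolynomial Pool.Agent.Helper97.GM Pool.Agent.Helper97.RU Pool.Agent.Helper97.CB

universe u

/-- Elements of `E(u, v)`, when `v ^ 2 = p + q v`. -/
theorem quad_form' {E F : Type*} [Field E] [Field F] [Algebra E F] {u v : F} {p q : F}
    (hp : p ∈ IntermediateField.adjoin E {u}) (hq : q ∈ IntermediateField.adjoin E {u})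
    (hv : v ^ 2 = p + q * v) {z : F} (hz : z ∈ IntermediateField.adjoin E {u, v}) :
    ∃ r s : F, r ∈ IntermediateField.adjoin E {u} ∧ s ∈ IntermediateField.adjoin E {u} ∧
      z = r + s * v := by
  set K := IntermediateField.adjoin E {u} with hK
  have hint : IsIntegral K v := by
    refine ⟨Polynomial.X ^ 2 - (Polynomial.C ⟨p, hp⟩ + Polynomial.C ⟨q, hq⟩ * Polynomial.X), ?_, ?_⟩
    · have h0 : (Polynomial.C (⟨p, hp⟩ : K) + Polynomial.C (⟨q, hq⟩ : K) * Polynomial.X).degree
          ≤ ((1 : ℕ) : WithBot ℕ) := by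
        refine (Polynomial.degree_add_le _ _).trans ?_
        rw [max_le_iff]
        constructor
        · exact Polynomial.degree_C_le.trans (by norm_num)
        · exact Polynomial.degree_C_mul_X_le _
      exact Polynomial.monic_X_pow_sub (lt_of_le_of_lt h0 (by norm_num))
    · simp only [Polynomial.eval₂_sub, Polynomial.eval₂_pow, Polynomial.eval₂_X,
        Polynomial.eval₂_add, Polynomial.eval₂_C, Polynomial.eval₂_mul]
      rw [hv]
      exact sub_self _
  have h1 : z ∈ IntermediateField.adjoin K {v} := by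
    have h2 : z ∈ IntermediateField.restrictScalars E (IntermediateField.adjoin K {v}) := by
      rw [hK, IntermediateField.adjoin_simple_adjoin_simple]
      exact hz
    exact h2
  have h3 : z ∈ Algebra.adjoin K {v} := by
    rw [← IntermediateField.adjoin_simple_toSubalgebra_of_isAlgebraic hint.isAlgebraic]
    exact h1
  induction h3 using Algebra.adjoin_induction with
  | mem x hx =>
    rw [Set.mem_singleton_iff.1 hx]
    exact ⟨0, 1, K.zero_mem, K.one_mem, by ring⟩
  | algebraMap r => exact ⟨r, 0, r.2, K.zero_mem, by rw [zero_mul, add_zero]; rfl⟩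
  | add x y h4 h5 hx hy =>
    have h6 : ∀ w ∈ Algebra.adjoin K {v}, w ∈ IntermediateField.adjoin K {v} := fun w hw =>
      IntermediateField.algebra_adjoin_le_adjoin _ _ hw
    have h7 : ∀ w ∈ IntermediateField.adjoin K {v}, w ∈ IntermediateField.adjoin E {u, v} := by
      intro w hw
      have h8 : w ∈ IntermediateField.restrictScalars E (IntermediateField.adjoin K {v}) := hw
      rw [hK, IntermediateField.adjoin_simple_adjoin_simple] at h8
      exact h8
    obtain ⟨r, s, hr, hs, rfl⟩ := hx (h7 _ (h6 _ h4)) (h6 _ h4)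
    obtain ⟨r', s', hr', hs', rfl⟩ := hy (h7 _ (h6 _ h5)) (h6 _ h5)
    exact ⟨r + r', s + s', K.add_mem hr hr', K.add_mem hs hs', by ring⟩
  | mul x y h4 h5 hx hy =>
    have h6 : ∀ w ∈ Algebra.adjoin K {v}, w ∈ IntermediateField.adjoin K {v} := fun w hw =>
      IntermediateField.algebra_adjoin_le_adjoin _ _ hw
    have h7 : ∀ w ∈ IntermediateField.adjoin K {v}, w ∈ IntermediateField.adjoin E {u, v} := by
      intro w hw
      have h8 : w ∈ IntermediateField.restrictScalars E (IntermediateField.adjoin K {v}) := hw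
      rw [hK, IntermediateField.adjoin_simple_adjoin_simple] at h8
      exact h8
    obtain ⟨r, s, hr, hs, rfl⟩ := hx (h7 _ (h6 _ h4)) (h6 _ h4)
    obtain ⟨r', s', hr', hs', rfl⟩ := hy (h7 _ (h6 _ h5)) (h6 _ h5)
    refine ⟨r * r' + s * s' * p, r * s' + s * r' + s * s' * q, ?_, ?_, ?_⟩
    · exact K.add_mem (K.mul_mem hr hr') (K.mul_mem (K.mul_mem hs hs') hp)
    · exact K.add_mem (K.add_mem (K.mul_mem hr hs') (K.mul_mem hs hr'))
        (K.mul_mem (K.mul_mem hs hs') hq)
    · linear_combination (s * s') * hv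

/-- Independence of `t` and `u`. -/
theorem not_mem {k E F : Type*} [Field k] [Field E] [Field F] [Algebra k E] [Algebra k F]
    [Algebra E F] [IsScalarTower k E F] {t : E} (ht : Transcendental k t) {u v : F}
    (hu : Transcendental E u) {p q : F} (hp : p ∈ IntermediateField.adjoin k {u})
    (hq : q ∈ IntermediateField.adjoin k {u}) (hv : v ^ 2 = p + q * v) :
    algebraMap E F t ∉ IntermediateField.adjoin k {u, v} := by
  intro hmem
  obtain ⟨r, s, hr, hs, h⟩ := quad_form' hp hq hv hmem
  set K := IntermediateField.adjoin k {u} with hK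
  have hint : IsIntegral K v := by
    refine ⟨Polynomial.X ^ 2 - (Polynomial.C ⟨p, hp⟩ + Polynomial.C ⟨q, hq⟩ * Polynomial.X), ?_, ?_⟩
    · have h0 : (Polynomial.C (⟨p, hp⟩ : K) + Polynomial.C (⟨q, hq⟩ : K) * Polynomial.X).degree
          ≤ ((1 : ℕ) : WithBot ℕ) := by
        refine (Polynomial.degree_add_le _ _).trans ?_
        rw [max_le_iff]
        constructor
        · exact Polynomial.degree_C_le.trans (by norm_num)
        · exact Polynomial.degree_C_mul_X_le _
      exact Polynomial.monic_X_pow_sub (lt_of_le_of_lt h0 (by norm_num))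
    · simp only [Polynomial.eval₂_sub, Polynomial.eval₂_pow, Polynomial.eval₂_X,
        Polynomial.eval₂_add, Polynomial.eval₂_C, Polynomial.eval₂_mul]
      rw [hv]
      exact sub_self _
  have h1 : IsIntegral K (algebraMap E F t) := by
    rw [h]
    exact (isIntegral_algebraMap (x := (⟨r, hr⟩ : K))).add
      ((isIntegral_algebraMap (x := (⟨s, hs⟩ : K))).mul hint)
  open scoped IntermediateField.algebraAdjoinAdjoin in
  have h2 : IsAlgebraic (Algebra.adjoin k {u}) (algebraMap E F t) :=
    IsAlgebraic.restrictScalars (Algebra.adjoin k {u}) h1.isAlgebraic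
  have h3 : AlgebraicIndependent k (fun _ : Unit => t) :=
    (algebraicIndependent_singleton_iff ()).2 ht
  have h4 : AlgebraicIndependent E (fun _ : Unit => u) :=
    (algebraicIndependent_singleton_iff ()).2 hu
  have h5 := h3.sumElim_comp h4
  have h6 := h5.transcendental_adjoin (s := {Sum.inl ()}) (i := Sum.inr ()) (by simp)
  have h7 : ∀ S : Set F, S = {u} → Transcendental (Algebra.adjoin k S) (algebraMap E F t) →
      Transcendental (Algebra.adjoin k {u}) (algebraMap E F t) := by
    rintro _ rfl h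
    exact h
  exact h7 _ (by simp) h6 h2

variable {k : Type u} [Field k] {σ : Type} [Fintype σ]

/-- Normal form of the datum. -/
theorem conic_polyQ {Q : ℕ} {I : Ideal (MvPolynomial σ k)} (h : IsQuasiConic Q I) :
    ∃ (E F : Type u) (_ : Field E) (_ : Field F) (_ : Algebra k E) (_ : Algebra k F)
      (_ : Algebra E F) (_ : IsScalarTower k E F) (M : ℕ) (ε : Idx σ M → E) (u v : F) (i : σ),
      (∃ t : E, Transcendental k t) ∧ ε (Sum.inr 5) = 1 ∧ disc2 ε ≠ 0 ∧ Transcendental E u ∧
      Q2 ε u v = 0 ∧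
      (∀ (f : MvPolynomial σ k) (m : ℕ), f.IsHomogeneous m →
        (f ∈ I ↔ aeval (Psi2 ε u v) f = 0)) ∧ Psi2 ε u v i ≠ 0 ∧
      ∀ z : F, z ^ Q ∈
        IntermediateField.adjoin k (Set.range fun j => Psi2 ε u v j / Psi2 ε u v i) := by
  classical
  obtain ⟨E, F, _, _, _, _, _, _, a, b, c, d, e, u, v, y, ht, hdisc, hu, hv, htop, hI, i, hi, hadj⟩ := h
  have hmem : ∀ z : Polynomial E, Polynomial.aeval u z ∈ IntermediateField.adjoin E {u} := fun z =>
    (IntermediateField.mem_adjoin_simple_iff E _).2 ⟨z, 1, by simp⟩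
  have hp := hmem (-(Polynomial.C c * Polynomial.X ^ 2 + Polynomial.C d * Polynomial.X +
    Polynomial.C e))
  have hq := hmem (-(Polynomial.C a * Polynomial.X + Polynomial.C b))
  simp only [map_neg, map_add, map_mul, map_pow, Polynomial.aeval_C, Polynomial.aeval_X] at hp hq
  obtain ⟨S, A, hS, hA⟩ := quad_clear hp hq (v := v) (by linear_combination hv) htop y
  have hsum : ∀ j s, (A j s).natDegree < ∑ j, ∑ s, (A j s).natDegree + 1 := by
    intro j s
    have h1 := Finset.single_le_sum (f := fun j => ∑ s, (A j s).natDegree)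
      (fun _ _ => Nat.zero_le _) (Finset.mem_univ j)
    have h2 := Finset.single_le_sum (f := fun s => (A j s).natDegree)
      (fun _ _ => Nat.zero_le _) (Finset.mem_univ s)
    omega
  set M : ℕ := ∑ j, ∑ s, (A j s).natDegree + 1 with hM
  set ε : Idx σ M → E := Sum.elim (fun x => (A x.1 x.2.1).coeff x.2.2) ![a, b, c, d, e, 1] with hε
  have hΨ : ∀ j, Psi2 ε u v j = Polynomial.aeval u S * y j := by
    intro j
    have h1 : ∀ s, ∑ m : Fin M, algebraMap E F ((A j s).coeff m) * u ^ (m : ℕ) =
        Polynomial.aeval u (A j s) := by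
      intro s
      rw [Polynomial.aeval_eq_sum_range' (hsum j s) u,
        ← Fin.sum_univ_eq_sum_range (fun m => (A j s).coeff m • u ^ m)]
      exact Finset.sum_congr rfl fun m _ => by rw [Algebra.smul_def]
    have h2 : Psi2 ε u v j = ∑ s : Fin 2, (∑ m : Fin M, algebraMap E F ((A j s).coeff m) *
        u ^ (m : ℕ)) * v ^ (s : ℕ) := by
      rw [Psi2]
      refine Finset.sum_congr rfl fun s _ => ?_
      rw [Finset.sum_mul]
      rfl
    rw [h2, Fin.sum_univ_two, h1, h1, hA j]
    simp
  have hΨ' : Psi2 ε u v = fun j => Polynomial.aeval u S * y j := funext hΨ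
  refine ⟨E, F, _, _, _, _, _, ‹_›, M, ε, u, v, i, ht, rfl, ?_, hu, ?_, ?_, ?_, ?_⟩
  · have h1 : disc2 ε = 4 * c * e + a * b * d - c * b ^ 2 - d ^ 2 - e * a ^ 2 := by
      have h2 : disc2 ε = 4 * c * e * 1 + a * b * d - c * b ^ 2 - 1 * d ^ 2 - e * a ^ 2 := rfl
      rw [h2]
      ring
    rw [h1]
    exact hdisc
  · have h1 : Q2 ε u v = algebraMap E F 1 * v ^ 2 + (algebraMap E F a * u + algebraMap E F b) * v +
        algebraMap E F c * u ^ 2 + algebraMap E F d * u + algebraMap E F e := rfl
    rw [h1, map_one, one_mul]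
    exact hv
  · intro f m hf
    rw [hI f m hf, hΨ', aeval_smul_form' _ _ hf, mul_eq_zero]
    constructor
    · exact Or.inr
    · rintro (h1 | h1)
      · exact absurd h1 (pow_ne_zero _ hS)
      · exact h1
  · rw [hΨ]
    exact mul_ne_zero hS hi
  · intro z
    have h1 : (Set.range fun j => Psi2 ε u v j / Psi2 ε u v i) = Set.range fun j => y j / y i := by
      congr 1
      funext j
      rw [hΨ, hΨ, mul_div_mul_left _ _ hS]
    rw [h1]
    exact hadj z

/-- The Frobenius twist of a polynomial. -/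
theorem aeval_frob {ι : Type*} (p s : ℕ) [ExpChar k p] {A : Type*} [Field A] [Algebra k A]
    (b : ι → A) (g : MvPolynomial ι k) :
    aeval (fun l => b l ^ p ^ s) (MvPolynomial.map (iterateFrobenius k p s) g) =
      (aeval b g) ^ p ^ s := by
  have : ExpChar A p := expChar_of_injective_algebraMap (algebraMap k A).injective p
  rw [← iterateFrobenius_def p s (aeval b g), aeval_def, aeval_def, eval₂_map, hom_eval₂]
  have h1 : (algebraMap k A).comp (iterateFrobenius k p s) =
      (iterateFrobenius A p s).comp (algebraMap k A) := RingHom.iterateFrobenius_comm _ _ _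
  rw [h1]
  rfl

omit [Fintype σ] in
/-- The discriminant of the Frobenius twist. -/
theorem disc2_frob (p s : ℕ) [ExpChar k p] {A : Type*} [Field A] [Algebra k A] {M : ℕ}
    (b : Idx σ M → A) : disc2 (fun l => b l ^ p ^ s) = (disc2 b) ^ p ^ s := by
  have : ExpChar A p := expChar_of_injective_algebraMap (algebraMap k A).injective p
  rw [← iterateFrobenius_def p s (disc2 b), disc2, disc2]
  simp only [map_sub, map_add, map_mul, map_pow, map_ofNat, iterateFrobenius_def]

theorem dataQ [IsAlgClosed k] (p s : ℕ) [ExpChar k p] {I : Ideal (MvPolynomial σ k)}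
    (h : IsQuasiConic (p ^ s) I) (hH : Hom I) :
    ∃ (M d d' δ : ℕ) (φ : Idx σ M → MvPolynomial σ k) (τ₀ τ₁ τ₂ : MvPolynomial σ k)
      (D : MvPolynomial (Idx σ M) k),
      (∀ l, (φ l).IsHomogeneous d) ∧ τ₀.IsHomogeneous d' ∧ τ₁.IsHomogeneous d' ∧
      τ₂.IsHomogeneous d' ∧ D.IsHomogeneous δ ∧ 1 ≤ δ ∧ bind₁ φ D ∉ I ∧
      (∃ l l', ∀ c c' : k, c ≠ 0 ∨ c' ≠ 0 → C c * φ l + C c' * φ l' ∉ I) ∧
      ∀ (K : Type u) [Field K] [Algebra k K] (b : Idx σ M → K), InB I φ (fun l => b l ^ (p ^ s)) →
        aeval (fun l => b l ^ (p ^ s)) D ≠ 0 → ConicAtQ (p ^ s) I φ τ₀ τ₁ τ₂ b := by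
  classical
  obtain ⟨E, F, _, _, _, _, _, _, M, ε, u, v, i, ⟨t, ht⟩, h5, hdisc, hu, hQ, hI, hi, hadj⟩ :=
    conic_polyQ h
  have hp0 : 0 < p ^ s := pow_pos (expChar_pos k p) s
  have hp1 : p ^ s ≠ 0 := hp0.ne'
  set Y := Psi2 ε u v with hY
  have hinj := (algebraMap E F).injective
  obtain ⟨d, ψ, φ₀, hψ, hφ₀, hne, hz⟩ := exists_forms
    (y := Y) (i := i) hi (z := Sum.elim (fun l => algebraMap E F (ε l) ^ p ^ s)
      ![u ^ p ^ s, v ^ p ^ s])
    (by
      rintro (l | l)
      · exact hadj _
      · fin_cases l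
        · exact hadj _
        · exact hadj _)
  set κ : F := aeval Y φ₀ with hκd
  set φ : Idx σ M → MvPolynomial σ k := fun l => ψ (Sum.inl l) with hφ
  have h1 : ∀ l, aeval Y (φ l) = κ * algebraMap E F (ε l) ^ p ^ s := by
    intro l
    have h2 := hz (Sum.inl l)
    simp only [Sum.elim_inl] at h2
    rw [h2, hφ]
    field_simp
  have h2 : aeval Y (ψ (Sum.inr 0)) = u ^ p ^ s * κ := by
    have h3 := hz (Sum.inr 0)
    simp only [Sum.elim_inr, Matrix.cons_val_zero] at h3
    rw [eq_div_iff hne] at h3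
    exact h3.symm
  have h3 : aeval Y (ψ (Sum.inr 1)) = v ^ p ^ s * κ := by
    have h3 := hz (Sum.inr 1)
    simp only [Sum.elim_inr, Matrix.cons_val_one] at h3
    rw [eq_div_iff hne] at h3
    exact h3.symm
  -- the key equivalence
  have key0 : ∀ (g : MvPolynomial (Idx σ M) k) (n : ℕ), g.IsHomogeneous n →
      (bind₁ φ g ∈ I ↔ aeval (fun l => ε l ^ p ^ s) g = 0) := by
    intro g n hg
    have h4 : (bind₁ φ g).IsHomogeneous (d * n) := hg.aeval φ fun l => hψ _
    rw [hI _ _ h4, aeval_bind₁]
    have h5 : aeval (fun l => aeval Y (φ l)) g =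
        κ ^ n * algebraMap E F (aeval (fun l => ε l ^ p ^ s) g) := by
      have h6 : algebraMap E F (aeval (fun l => ε l ^ p ^ s) g) =
          aeval (fun l => algebraMap E F (ε l ^ p ^ s)) g :=
        (aeval_algebraMap_apply F _ g).symm
      rw [h6, ← aeval_smul_form' _ _ hg]
      congr 2
      funext l
      rw [map_pow]
      exact h1 l
    rw [h5, mul_eq_zero, map_eq_zero_iff _ hinj]
    constructor
    · rintro (h7 | h7)
      · exact absurd h7 (pow_ne_zero _ hne)
      · exact h7
    · exact Or.inr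
  have h50 : (fun l => ε l ^ p ^ s) (Sum.inr 5) ≠ 0 := by
    simp only [h5, one_pow]
    exact one_ne_zero
  have hεdiv : (fun l => (fun l => ε l ^ p ^ s) l / (fun l => ε l ^ p ^ s) (Sum.inr 5)) =
      fun l => ε l ^ p ^ s := by
    funext l
    simp only [h5, one_pow, div_one]
  -- specialisations
  have hspe : ∀ (K : Type u) [Field K] [Algebra k K] (b : Idx σ M → K),
      InB I φ (fun l => b l ^ p ^ s) →
      b (Sum.inr 5) ≠ 0 → Spe (k := k) ε (fun l => b l / b (Sum.inr 5)) := by
    intro K _ _ b hb hb5 g hg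
    set gq := MvPolynomial.map (iterateFrobenius k p s) g with hgq
    have h4 := hb (homog (Sum.inr 5) gq.totalDegree gq) _ (homog_hom _ _ _)
      ((key0 _ _ (homog_hom _ _ _)).2 (by
        rw [aeval_homog (fun l => ε l ^ p ^ s) h50 le_rfl, hεdiv, hgq, aeval_frob, hg,
          zero_pow hp1, mul_zero]))
    have hb5' : (fun l => b l ^ p ^ s) (Sum.inr 5) ≠ 0 := pow_ne_zero _ hb5
    rw [aeval_homog (fun l => b l ^ p ^ s) hb5' le_rfl] at h4
    have h6 := (mul_eq_zero.1 h4).resolve_left (pow_ne_zero _ hb5')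
    have h7 : (fun l => (fun l => b l ^ p ^ s) l / (fun l => b l ^ p ^ s) (Sum.inr 5)) =
        fun l => (b l / b (Sum.inr 5)) ^ p ^ s := by
      funext l
      rw [div_pow]
    rw [h7, hgq, aeval_frob (k := k) p s (fun l => b l / b (Sum.inr 5)) g] at h6
    exact (pow_eq_zero_iff hp1).1 h6
  -- nonvanishing
  obtain ⟨g1, hg1, hg1'⟩ := spec_ne (k := k) h5 hdisc hu hQ (P := Gen2 M φ₀) (by
    rw [gen2_aeval]
    exact hne)
  obtain ⟨g2, hg2, hg2'⟩ := spec_ne (k := k) h5 hdisc hu hQ (P := Gen2 M (φ (Sum.inr 5))) (by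
    rw [gen2_aeval, ← hY, h1, h5, map_one, one_pow, mul_one]
    exact hne)
  set g : MvPolynomial (Idx σ M) k := g1 * g2 with hg
  set gq := MvPolynomial.map (iterateFrobenius k p s) g with hgq
  set DX : MvPolynomial (Idx σ M) k := disc2 (X : Idx σ M → MvPolynomial (Idx σ M) k) with hDX
  have hDXh : DX.IsHomogeneous 3 := by
    have hX := fun l : Idx σ M => isHomogeneous_X k l
    have h4 : ∀ a b c : Idx σ M, (X a * X b * X c : MvPolynomial (Idx σ M) k).IsHomogeneous 3 :=
      fun a b c => ((hX a).mul (hX b)).mul (hX c)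
    have h6 : DX = C 4 * (X (Sum.inr 2) * X (Sum.inr 4) * X (Sum.inr 5)) +
        X (Sum.inr 0) * X (Sum.inr 1) * X (Sum.inr 3) -
        X (Sum.inr 2) * X (Sum.inr 1) * X (Sum.inr 1) -
        X (Sum.inr 5) * X (Sum.inr 3) * X (Sum.inr 3) -
        X (Sum.inr 4) * X (Sum.inr 0) * X (Sum.inr 0) := by
      rw [hDX, disc2]
      have h7 : (C 4 : MvPolynomial (Idx σ M) k) = 4 := map_ofNat C 4
      rw [h7]
      ring
    rw [h6]
    refine ((IsHomogeneous.add ?_ (h4 _ _ _)).sub (h4 _ _ _)).sub (h4 _ _ _) |>.sub (h4 _ _ _)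
    have h7 := (isHomogeneous_C (Idx σ M) (4 : k)).mul (h4 (Sum.inr 2) (Sum.inr 4) (Sum.inr 5))
    simpa using h7
  have hDXe : ∀ {A : Type u} [CommRing A] [Algebra k A] (b : Idx σ M → A),
      aeval b DX = disc2 b := by
    intro A _ _ b
    rw [hDX, disc2, disc2]
    simp only [map_sub, map_add, map_mul, map_pow, aeval_X, map_ofNat]
  set D : MvPolynomial (Idx σ M) k :=
    X (Sum.inr 5) * DX * homog (Sum.inr 5) gq.totalDegree gq with hD
  have hDh : D.IsHomogeneous (1 + 3 + gq.totalDegree) :=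
    ((isHomogeneous_X k _).mul hDXh).mul (homog_hom _ _ _)
  refine ⟨M, d, d, 1 + 3 + gq.totalDegree, φ, φ₀, ψ (Sum.inr 0), ψ (Sum.inr 1), D,
    fun l => hψ _, hφ₀, hψ _, hψ _, hDh, by omega, ?_, ?_, ?_⟩
  · rw [key0 _ _ hDh, hD, map_mul, map_mul, aeval_X, hDXe, disc2_frob (k := k) p s ε,
      aeval_homog (fun l => ε l ^ p ^ s) h50 le_rfl, hεdiv, hgq, aeval_frob]
    refine mul_ne_zero (mul_ne_zero h50 (pow_ne_zero _ hdisc))
      (mul_ne_zero (pow_ne_zero _ h50) (pow_ne_zero _ ?_))
    rw [hg, map_mul]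
    exact mul_ne_zero hg1 hg2
  · -- independence
    by_contra hcon
    push Not at hcon
    have : ExpChar E p := expChar_of_injective_algebraMap (algebraMap k E).injective p
    have h4 : ∀ l, ∃ a : k, ε l = algebraMap k E a := by
      intro l
      obtain ⟨c, c', hc, hmem⟩ := hcon l (Sum.inr 5)
      have h7 : (C c * φ l + C c' * φ (Sum.inr 5)) = bind₁ φ (C c * X l + C c' * X (Sum.inr 5)) := by
        simp
      have h6 : (C c * X l + C c' * X (Sum.inr 5) : MvPolynomial (Idx σ M) k).IsHomogeneous 1 := by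
        refine IsHomogeneous.add ?_ ?_
        · simpa using (isHomogeneous_C (Idx σ M) c).mul (isHomogeneous_X k l)
        · simpa using (isHomogeneous_C (Idx σ M) c').mul (isHomogeneous_X k (Sum.inr 5))
      rw [h7, key0 _ _ h6] at hmem
      simp only [map_add, map_mul, aeval_X, aeval_C, h5, one_pow, mul_one] at hmem
      have h7 : c ≠ 0 := by
        intro h8
        rw [h8, map_zero, zero_mul, zero_add] at hmem
        rcases hc with h10 | h10
        · exact h10 h8
        · exact h10 ((map_eq_zero_iff _ (algebraMap k E).injective).1 hmem)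
      obtain ⟨a, ha⟩ := IsAlgClosed.exists_pow_nat_eq (-c' / c) hp0
      refine ⟨a, ?_⟩
      have h8 : algebraMap k E c ≠ 0 := by
        rwa [Ne, map_eq_zero_iff _ (algebraMap k E).injective]
      apply iterateFrobenius_inj E p s
      rw [iterateFrobenius_def, iterateFrobenius_def, ← map_pow, ha, map_div₀, map_neg,
        eq_div_iff h8]
      linear_combination hmem
    choose a ha using h4
    have hmap : ∀ l, algebraMap E F (ε l) = algebraMap k F (a l) := by
      intro l
      rw [ha, ← IsScalarTower.algebraMap_apply]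
    have hmemk : ∀ z : Polynomial k, Polynomial.aeval u z ∈ IntermediateField.adjoin k {u} :=
      fun z => (IntermediateField.mem_adjoin_simple_iff k _).2 ⟨z, 1, by simp⟩
    have hp := hmemk (-(Polynomial.C (a (Sum.inr 2)) * Polynomial.X ^ 2 +
      Polynomial.C (a (Sum.inr 3)) * Polynomial.X + Polynomial.C (a (Sum.inr 4))))
    have hq := hmemk (-(Polynomial.C (a (Sum.inr 0)) * Polynomial.X +
      Polynomial.C (a (Sum.inr 1))))
    simp only [map_neg, map_add, map_mul, map_pow, Polynomial.aeval_C, Polynomial.aeval_X] at hp hq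
    refine not_mem (ht.pow hp0) hu hp hq (v := v) ?_ ?_
    · rw [Q2] at hQ
      rw [← hmap, ← hmap, ← hmap, ← hmap, ← hmap]
      rw [h5, map_one] at hQ
      linear_combination hQ
    · rw [map_pow]
      have hle : IntermediateField.adjoin k (Set.range fun j => Y j / Y i) ≤
          IntermediateField.adjoin k {u, v} := by
        rw [IntermediateField.adjoin_le_iff]
        have huv : u ∈ IntermediateField.adjoin k {u, v} :=
          IntermediateField.subset_adjoin _ _ (by simp)
        have hvv : v ∈ IntermediateField.adjoin k {u, v} :=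
          IntermediateField.subset_adjoin _ _ (by simp)
        have hYm : ∀ j, Y j ∈ IntermediateField.adjoin k {u, v} := by
          intro j
          rw [hY, Psi2]
          refine sum_mem fun s _ => sum_mem fun m _ => ?_
          rw [hmap]
          exact mul_mem (mul_mem (IntermediateField.algebraMap_mem _ _) (pow_mem huv _))
            (pow_mem hvv _)
        rintro _ ⟨j, rfl⟩
        exact div_mem (hYm j) (hYm i)
      exact hle (hadj _)
  · intro K _ _ b hb hbD
    rw [hD, map_mul, map_mul, aeval_X] at hbD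
    have hb5q : b (Sum.inr 5) ^ p ^ s ≠ 0 := left_ne_zero_of_mul (left_ne_zero_of_mul hbD)
    have hb5 : b (Sum.inr 5) ≠ 0 := fun h => hb5q (by rw [h, zero_pow hp1])
    have hbX := right_ne_zero_of_mul (left_ne_zero_of_mul hbD)
    have hbg := right_ne_zero_of_mul hbD
    have hb5' : (fun l => b l ^ p ^ s) (Sum.inr 5) ≠ 0 := hb5q
    rw [aeval_homog (fun l => b l ^ p ^ s) hb5' le_rfl] at hbg
    have hbg' := right_ne_zero_of_mul hbg
    have h7 : (fun l => (fun l => b l ^ p ^ s) l / (fun l => b l ^ p ^ s) (Sum.inr 5)) =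
        fun l => (b l / b (Sum.inr 5)) ^ p ^ s := by
      funext l
      rw [div_pow]
    rw [h7, hgq, aeval_frob (k := k) p s (fun l => b l / b (Sum.inr 5)) g] at hbg'
    have hbg' : aeval (fun l => b l / b (Sum.inr 5)) g ≠ 0 := fun h => hbg' (by
      rw [h, zero_pow hp1])
    rw [hg, map_mul] at hbg'
    have hs := hspe K b hb hb5
    rw [hDXe, disc2_frob (k := k) p s b] at hbX
    refine ⟨hb5, fun h => hbX (by rw [h, zero_pow hp1]), ?_⟩
    intro L _ _ _ _ U V hU hUV
    set b' : Idx σ M → K := fun l => b l / b (Sum.inr 5) with hb'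
    have hbb : ∀ l, algebraMap K L (b l) = algebraMap K L (b (Sum.inr 5)) * algebraMap K L (b' l) := by
      intro l
      rw [← map_mul, hb']
      simp only
      rw [mul_div_cancel₀ _ hb5]
    have hb5L : algebraMap K L (b (Sum.inr 5)) ≠ 0 := by
      rwa [Ne, map_eq_zero_iff _ (algebraMap K L).injective]
    have hUV' : Q2 b' U V = 0 := by
      have h4 : Q2 b U V = algebraMap K L (b (Sum.inr 5)) * Q2 b' U V := by
        rw [Q2, Q2, hbb (Sum.inr 0), hbb (Sum.inr 1), hbb (Sum.inr 2), hbb (Sum.inr 3),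
          hbb (Sum.inr 4)]
        have h6 := hbb (Sum.inr 5)
        linear_combination V ^ 2 * h6
      rw [h4] at hUV
      exact (mul_eq_zero.1 hUV).resolve_left hb5L
    have hΨ : Psi2 b U V = fun j => algebraMap K L (b (Sum.inr 5)) * Psi2 b' U V j := by
      funext j
      rw [Psi2, Psi2, Finset.mul_sum]
      refine Finset.sum_congr rfl fun s _ => ?_
      rw [Finset.mul_sum]
      refine Finset.sum_congr rfl fun m _ => ?_
      rw [hbb (Sum.inl (j, s, m))]
      ring
    have hsc : ∀ (f : MvPolynomial σ k) (n : ℕ), f.IsHomogeneous n →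
        aeval (Psi2 b U V) f = algebraMap K L (b (Sum.inr 5)) ^ n * aeval (Psi2 b' U V) f := by
      intro f n hf
      rw [hΨ, aeval_smul_form' _ _ hf]
    have hzero := fun {P : MvPolynomial (Idx σ M ⊕ Fin 2) k} hP =>
      spec_zero (k := k) h5 hdisc hu hQ (P := P) hP hs (L := L) hUV'
    refine ⟨?_, ?_, ?_, ?_, ?_, Sum.inr 5, ?_⟩
    · intro f hf
      rw [← sum_homogeneousComponent f, map_sum]
      refine Finset.sum_eq_zero fun n _ => ?_
      rw [hsc _ n (homogeneousComponent_isHomogeneous n f)]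
      have h4 := hzero (P := Gen2 M (homogeneousComponent n f)) (by
        rw [gen2_aeval]
        exact (hI _ _ (homogeneousComponent_isHomogeneous n f)).1 (hH f hf n))
      rw [gen2_aeval] at h4
      rw [h4, mul_zero]
    · have h4 := hzero (P := Gen2 M (ψ (Sum.inr 0)) - X (Sum.inr 0) ^ p ^ s * Gen2 M φ₀) (by
        rw [map_sub, map_mul, map_pow, gen2_aeval, gen2_aeval, aeval_X, ← hY, h2]
        simp [hκd])
      rw [map_sub, map_mul, map_pow, gen2_aeval, gen2_aeval, aeval_X] at h4
      simp only [Sum.elim_inr, Matrix.cons_val_zero] at h4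
      rw [hsc _ d (hψ _), hsc _ d hφ₀]
      linear_combination (algebraMap K L (b (Sum.inr 5))) ^ d * h4
    · have h4 := hzero (P := Gen2 M (ψ (Sum.inr 1)) - X (Sum.inr 1) ^ p ^ s * Gen2 M φ₀) (by
        rw [map_sub, map_mul, map_pow, gen2_aeval, gen2_aeval, aeval_X, ← hY, h3]
        simp [hκd])
      rw [map_sub, map_mul, map_pow, gen2_aeval, gen2_aeval, aeval_X] at h4
      have hV : Sum.elim (fun l => algebraMap K L (b' l)) ![U, V] (Sum.inr 1) = V := rfl
      rw [hV] at h4
      rw [hsc _ d (hψ _), hsc _ d hφ₀]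
      linear_combination (algebraMap K L (b (Sum.inr 5))) ^ d * h4
    · rw [hsc _ d hφ₀]
      have h4 := hg1' K L b' hs (left_ne_zero_of_mul hbg') U V hU hUV'
      rw [gen2_aeval] at h4
      exact mul_ne_zero (pow_ne_zero _ hb5L) h4
    · intro l l'
      have h4 := hzero (P := Gen2 M (φ l) * X (Sum.inl l') ^ p ^ s -
          Gen2 M (φ l') * X (Sum.inl l) ^ p ^ s) (by
        rw [map_sub, map_mul, map_mul, map_pow, map_pow, gen2_aeval, gen2_aeval, aeval_X, aeval_X,
          ← hY, h1, h1]
        simp only [Sum.elim_inl]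
        ring)
      rw [map_sub, map_mul, map_mul, map_pow, map_pow, gen2_aeval, gen2_aeval, aeval_X,
        aeval_X] at h4
      simp only [Sum.elim_inl] at h4
      rw [hsc _ d (hψ _), hsc _ d (hψ _), map_pow, map_pow, hbb l, hbb l', mul_pow, mul_pow]
      linear_combination (algebraMap K L (b (Sum.inr 5))) ^ d *
        (algebraMap K L (b (Sum.inr 5))) ^ p ^ s * h4
    · rw [hsc _ d (hψ _)]
      have h4 := hg2' K L b' hs (right_ne_zero_of_mul hbg') U V hU hUV'
      rw [gen2_aeval] at h4
      exact mul_ne_zero (pow_ne_zero _ hb5L) h4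

end Pool.Agent.Helper97.QC
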