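import Pool.Agent.Helper97.QC.Defs
import Pool.Agent.Helper97.CB.Lift
import Mathlib.FieldTheory.AlgebraicClosure

/-!
# The unirational surface over a rational curve in the base
-/

set_option autoImplicit false

namespace Pool.Agent.Helper97.QC

open MvPolynomial Pool.Agent.Helper97.GM Pool.Agent.Helper97.RU Pool.Agent.Helper97.CB

universe u

variable {k : Type u} [Field k] {σ : Type} [Fintype σ]

private theorem aeval_mem' {L : Type*} [Field L] [Algebra k L] (A : IntermediateField k L) {τ : Type*}
    (z : τ → L) (hz : ∀ j, z j ∈ A) (f : MvPolynomial τ k) : aeval z f ∈ A := by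
  have h : (aeval z : MvPolynomial τ k →ₐ[k] L) = A.val.comp (aeval fun j => (⟨z j, hz j⟩ : A)) := by
    apply MvPolynomial.algHom_ext
    intro j
    simp
  rw [h]
  exact SetLike.coe_mem _

private theorem form_eq' {τ : Type} [Fintype τ] {L : Type*} [Field L] [Algebra k L] {y : τ → L}
    {i : τ} (hi : y i ≠ 0) {f : MvPolynomial τ k} {m : ℕ} (hf : f.IsHomogeneous m) :
    aeval y f = y i ^ m * aeval (fun j => y j / y i) f := by
  rw [← aeval_smul_form (y i) (fun j => y j / y i) hf]
  have e : (fun j => y i * (y j / y i)) = y := funext fun j => mul_div_cancel₀ _ hi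
  rw [e]

private theorem ratio_mem' {L : Type*} [Field L] [Algebra k L] {y : σ → L} {i : σ} (hi : y i ≠ 0)
    {f g : MvPolynomial σ k} {m : ℕ} (hf : f.IsHomogeneous m) (hg : g.IsHomogeneous m) :
    aeval y f / aeval y g ∈ IntermediateField.adjoin k (Set.range fun j => y j / y i) := by
  rw [form_eq' hi hf, form_eq' hi hg, mul_div_mul_left _ _ (pow_ne_zero _ hi)]
  have h1 : ∀ j, y j / y i ∈ IntermediateField.adjoin k (Set.range fun j => y j / y i) :=
    fun j => IntermediateField.subset_adjoin _ _ ⟨j, rfl⟩
  exact div_mem (aeval_mem' _ _ h1 f) (aeval_mem' _ _ h1 g)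

section embed

variable (k)

private noncomputable def uu (j : Fin 2) : FractionRing (MvPolynomial (Fin 2) k) :=
  algebraMap (MvPolynomial (Fin 2) k) _ (X j)

private theorem transc0 : Transcendental k (uu k 0) :=
  (transcendental_algebraMap_iff (IsFractionRing.injective (MvPolynomial (Fin 2) k)
    (FractionRing (MvPolynomial (Fin 2) k)))).2 (MvPolynomial.transcendental_X k 0)

/-- `k(t) → k(u₀, u₁)` -/
private noncomputable def i0 : RatFunc k →ₐ[k] FractionRing (MvPolynomial (Fin 2) k) :=
  (IntermediateField.val _).comp (RatFunc.algEquivOfTranscendental (uu k 0) (transc0 k)).toAlgHom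

private theorem i0_alg (p : Polynomial k) :
    i0 k (algebraMap (Polynomial k) (RatFunc k) p) = Polynomial.aeval (uu k 0) p := by
  show ((RatFunc.algEquivOfTranscendental (uu k 0) (transc0 k) (algebraMap _ _ p) : _) :
    FractionRing (MvPolynomial (Fin 2) k)) = _
  rw [RatFunc.algEquivOfTranscendental_apply]
  simp

/-- `k(t)[x] → k(u₀, u₁)` -/
private noncomputable def i1 :
    Polynomial (RatFunc k) →+* FractionRing (MvPolynomial (Fin 2) k) :=
  Polynomial.eval₂RingHom (i0 k).toRingHom (uu k 1)

private theorem i1_inj : Function.Injective (i1 k) := by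
  rw [injective_iff_map_eq_zero]
  intro p hp
  have h1 := IsLocalization.integerNormalization_eval₂_eq_zero (nonZeroDivisors (Polynomial k))
    (i0 k).toRingHom p (x := uu k 1) hp
  rw [← IsLocalization.integerNormalization_eq_zero_iff (M := nonZeroDivisors (Polynomial k)) le_rfl]
  set q := IsLocalization.integerNormalization (nonZeroDivisors (Polynomial k)) p
  -- the left inverse
  let ρ : Polynomial (Polynomial k) →+* MvPolynomial (Fin 2) k :=
    Polynomial.eval₂RingHom (Polynomial.aeval (X 0)).toRingHom (X 1)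
  let ρ' : MvPolynomial (Fin 2) k →+* Polynomial (Polynomial k) :=
    (aeval (![Polynomial.C Polynomial.X, Polynomial.X] : Fin 2 → Polynomial (Polynomial k)) :
      MvPolynomial (Fin 2) k →ₐ[k] Polynomial (Polynomial k)).toRingHom
  have h2 : ρ'.comp ρ = RingHom.id _ := by
    apply Polynomial.ringHom_ext'
    · apply Polynomial.ringHom_ext'
      · ext a
        simp [ρ, ρ']
      · simp [ρ, ρ']
    · simp [ρ, ρ']
  have h3 : (algebraMap (MvPolynomial (Fin 2) k) (FractionRing (MvPolynomial (Fin 2) k))).comp ρ =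
      Polynomial.eval₂RingHom ((i0 k).toRingHom.comp (algebraMap (Polynomial k) (RatFunc k))) (uu k 1) := by
    apply Polynomial.ringHom_ext'
    · apply Polynomial.ringHom_ext'
      · ext a
        have h4 := i0_alg k (Polynomial.C a)
        simp only [Polynomial.aeval_C] at h4
        simp only [ρ, RingHom.comp_apply, Polynomial.coe_eval₂RingHom, Polynomial.eval₂_C]
        refine Eq.trans ?_ h4.symm
        simp [IsScalarTower.algebraMap_apply k (MvPolynomial (Fin 2) k)
          (FractionRing (MvPolynomial (Fin 2) k))]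
      · have h4 := i0_alg k Polynomial.X
        simp only [Polynomial.aeval_X] at h4
        simp only [ρ, RingHom.comp_apply, Polynomial.coe_eval₂RingHom, Polynomial.eval₂_C]
        refine Eq.trans ?_ h4.symm
        simp [uu]
    · simp [ρ, uu]
  have h5 : ρ q = 0 := by
    apply IsFractionRing.injective (MvPolynomial (Fin 2) k) (FractionRing (MvPolynomial (Fin 2) k))
    rw [map_zero, ← RingHom.comp_apply, h3]
    exact h1
  have h6 : ρ' (ρ q) = q := by
    rw [← RingHom.comp_apply, h2]
    rfl
  rw [← h6, h5, map_zero]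

/-- `k(t)(x) → k(u₀, u₁)` -/
private noncomputable def i2 :
    RatFunc (RatFunc k) →+* FractionRing (MvPolynomial (Fin 2) k) :=
  IsFractionRing.lift (A := Polynomial (RatFunc k)) (i1_inj k)

private theorem i2_alg (p : Polynomial (RatFunc k)) :
    i2 k (algebraMap (Polynomial (RatFunc k)) (RatFunc (RatFunc k)) p) = i1 k p :=
  IsFractionRing.lift_algebraMap (i1_inj k) p

private theorem i2_K (r : RatFunc k) :
    i2 k (algebraMap (RatFunc k) (RatFunc (RatFunc k)) r) = i0 k r := by
  rw [IsScalarTower.algebraMap_apply (RatFunc k) (Polynomial (RatFunc k)) (RatFunc (RatFunc k)),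
    i2_alg, Polynomial.algebraMap_apply]
  simp [i1]

private theorem i2_X : i2 k RatFunc.X = uu k 1 := by
  rw [← RatFunc.algebraMap_X, i2_alg]
  simp [i1]

private theorem i2_aeval {τ : Type*} (y : τ → RatFunc (RatFunc k)) (f : MvPolynomial τ k) :
    i2 k (aeval y f) = aeval (fun j => i2 k (y j)) f := by
  have h : (i2 k).comp (aeval y : MvPolynomial τ k →ₐ[k] _).toRingHom =
      (aeval (fun j => i2 k (y j)) : MvPolynomial τ k →ₐ[k] _).toRingHom := by
    apply MvPolynomial.ringHom_ext
    · intro a
      have h1 : (i0 k) (algebraMap k (RatFunc k) a) = algebraMap k _ a := (i0 k).commutes a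
      simp only [RingHom.comp_apply, AlgHom.toRingHom_eq_coe, RingHom.coe_coe, MvPolynomial.aeval_C]
      rw [IsScalarTower.algebraMap_apply k (RatFunc k) (RatFunc (RatFunc k)), i2_K]
      exact h1
    · intro j
      simp
  exact DFunLike.congr_fun h f

end embed

/-- Every polynomial in `X ^ q` is a `q`-th power. -/
private theorem exists_root [IsAlgClosed k] (p s : ℕ) [ExpChar k p] (f : Polynomial k) :
    ∃ g : Polynomial k, g ^ (p ^ s) = Polynomial.expand k (p ^ s) f := by
  have : PerfectRing k p := PerfectField.toPerfectRing p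
  refine ⟨f.map (iterateFrobeniusEquiv k p s).symm.toRingHom, ?_⟩
  rw [← Polynomial.map_iterateFrobenius_expand, ← Polynomial.map_expand, Polynomial.map_map]
  have h : (iterateFrobenius k p s).comp (iterateFrobeniusEquiv k p s).symm.toRingHom =
      RingHom.id k := by
    ext x
    exact (iterateFrobeniusEquiv k p s).apply_symm_apply x
  rw [h, Polynomial.map_id]

/-- A field between `k` and `k(t)` which is algebraically closed in a larger field is everything or
`k`. -/
private theorem all_of_one {L : Type*} [Field L] [Algebra k L] (A : IntermediateField k L)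
    (i : RatFunc k →ₐ[k] L) {r : RatFunc k} (hr : ∀ c : k, algebraMap k (RatFunc k) c ≠ r)
    (hrA : i r ∈ algebraicClosure A L) (x : RatFunc k) : i x ∈ algebraicClosure A L := by
  set B : IntermediateField A L := algebraicClosure A L with hB
  set E : IntermediateField k (RatFunc k) := (B.restrictScalars k).comap i with hE
  have hmem : ∀ x : RatFunc k, x ∈ E ↔ i x ∈ B := fun x => Iff.rfl
  have hE0 : E ≠ ⊥ := by
    intro h
    have h1 : r ∈ E := (hmem r).2 hrA
    rw [h, IntermediateField.mem_bot] at h1
    obtain ⟨c, hc⟩ := h1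
    exact hr c hc
  have hX := RatFunc.IntermediateField.isAlgebraic_X hE0
  have hX2 : IsAlgebraic B (i (RatFunc.X : RatFunc k)) := by
    refine hX.ringHom_of_comp_eq
      (((i : RatFunc k →+* L).comp (algebraMap E (RatFunc k))).codRestrict B fun x => x.2)
      (i : RatFunc k →+* L) (RingHom.injective _) ?_
    ext x
    rfl
  have hX3 : (RatFunc.X : RatFunc k) ∈ E := by
    rw [hmem, hB, mem_algebraicClosure_iff]
    exact hX2.restrictScalars A
  have htop : E = ⊤ := by
    rw [eq_top_iff, ← RatFunc.adjoin_X]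
    exact IntermediateField.adjoin_simple_le_iff.2 hX3
  have h2 : x ∈ E := by
    rw [htop]
    exact IntermediateField.mem_top
  exact (hmem x).1 h2

theorem liftQ [IsAlgClosed k] (p s : ℕ) [ExpChar k p] {I : Ideal (MvPolynomial σ k)} {M d d' δ : ℕ}
    {φ : Idx σ M → MvPolynomial σ k} {τ₀ τ₁ τ₂ : MvPolynomial σ k} {D : MvPolynomial (Idx σ M) k}
    (hφ : ∀ l, (φ l).IsHomogeneous d) (hτ₀ : τ₀.IsHomogeneous d') (hτ₁ : τ₁.IsHomogeneous d')
    (hτ₂ : τ₂.IsHomogeneous d') (hD : D.IsHomogeneous δ)
    (hK : ∀ (K : Type u) [Field K] [Algebra k K] (b : Idx σ M → K),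
      InB I φ (fun l => b l ^ (p ^ s)) → aeval (fun l => b l ^ (p ^ s)) D ≠ 0 →
      ConicAtQ (p ^ s) I φ τ₀ τ₁ τ₂ b)
    {c : Idx σ M → Polynomial k} (hc : InB I φ c) (hcD : aeval c D ≠ 0) (hcc : ¬ Const c) :
    HasUnirational I := by
  classical
  have hp : 0 < p := expChar_pos k p
  have hq : 0 < p ^ s := pow_pos hp s
  set q := p ^ s with hqdef
  choose b hb using fun l => exists_root (k := k) p s (c l)
  rw [← hqdef] at hb
  set β : Idx σ M → RatFunc k := fun l => algebraMap (Polynomial k) (RatFunc k) (b l) with hβ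
  have hβq : ∀ l, β l ^ q = algebraMap (Polynomial k) (RatFunc k) (Polynomial.expand k q (c l)) := by
    intro l
    rw [hβ, ← hb l, map_pow]
  have hev : ∀ g : MvPolynomial (Idx σ M) k, aeval (fun l => β l ^ q) g =
      algebraMap (Polynomial k) (RatFunc k) (Polynomial.expand k q (aeval c g)) := by
    intro g
    have h1 : (fun l => β l ^ q) = fun l => (IsScalarTower.toAlgHom k (Polynomial k) (RatFunc k))
        ((Polynomial.expand k q) (c l)) := funext hβq
    have h2 : ((IsScalarTower.toAlgHom k (Polynomial k) (RatFunc k)).comp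
        (Polynomial.expand k q)).comp (aeval c) = aeval (fun l =>
          (IsScalarTower.toAlgHom k (Polynomial k) (RatFunc k)) ((Polynomial.expand k q) (c l))) := by
      apply MvPolynomial.algHom_ext
      intro l
      simp
    rw [h1, ← h2]
    rfl
  have hinj0 : Function.Injective (algebraMap (Polynomial k) (RatFunc k)) :=
    IsFractionRing.injective (Polynomial k) (RatFunc k)
  have hinjE : Function.Injective (Polynomial.expand k q) := Polynomial.expand_injective hq
  have hin : InB I φ (fun l => β l ^ q) := by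
    intro g m hg hgI
    rw [hev, hc g m hg hgI, map_zero, map_zero]
  have hD' : aeval (fun l => β l ^ q) D ≠ 0 := by
    rw [hev]
    intro h
    apply hcD
    apply hinjE
    apply hinj0
    rw [h, map_zero, map_zero]
  obtain ⟨h5, hdisc, hL⟩ := hK (RatFunc k) β hin hD'
  -- the point of the conic
  set c5 := β (Sum.inr 5) with hc5
  set a' := β (Sum.inr 0) / c5 with ha'
  set e1 := β (Sum.inr 1) / c5 with he1
  set e2 := β (Sum.inr 2) / c5 with he2
  set e3 := β (Sum.inr 3) / c5 with he3
  set e4 := β (Sum.inr 4) / c5 with he4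
  have hdisc' : 4 * e2 * e4 + a' * e1 * e3 - e2 * e1 ^ 2 - e3 ^ 2 - e4 * a' ^ 2 ≠ 0 := by
    intro h
    apply hdisc
    have h6 : disc2 β = c5 ^ 3 * (4 * e2 * e4 + a' * e1 * e3 - e2 * e1 ^ 2 - e3 ^ 2 - e4 * a' ^ 2) := by
      rw [ha', he1, he2, he3, he4]
      simp only [disc2, ← hc5]
      field_simp
    rw [h6, h, mul_zero]
  obtain ⟨x, y, z, hxyz, hq'⟩ := tsen_conic (k := k) ![e2, a', 1, e3, e1, e4]
  have hq'' : y ^ 2 + (a' * x + e1 * z) * y + e2 * x ^ 2 + e3 * x * z + e4 * z ^ 2 = 0 := by
    rw [← hq']
    simp only [Matrix.cons_val]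
    ring
  obtain ⟨U, V, hUV, hU, hUVtop⟩ := conic_par hdisc' hxyz hq''
  have hQ : Q2 β U V = 0 := by
    have hmap : ∀ r : RatFunc k, algebraMap (RatFunc k) (RatFunc (RatFunc k)) (c5 * (r / c5)) =
        algebraMap (RatFunc k) (RatFunc (RatFunc k)) r := by
      intro r
      rw [mul_div_cancel₀ _ h5]
    have h6 : Q2 β U V = algebraMap (RatFunc k) (RatFunc (RatFunc k)) c5 *
        (V ^ 2 + (algebraMap (RatFunc k) (RatFunc (RatFunc k)) a' * U +
          algebraMap (RatFunc k) (RatFunc (RatFunc k)) e1) * V +
        algebraMap (RatFunc k) (RatFunc (RatFunc k)) e2 * U ^ 2 +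
        algebraMap (RatFunc k) (RatFunc (RatFunc k)) e3 * U +
        algebraMap (RatFunc k) (RatFunc (RatFunc k)) e4) := by
      unfold Q2
      rw [← hmap (β (Sum.inr 0)), ← hmap (β (Sum.inr 1)), ← hmap (β (Sum.inr 2)),
        ← hmap (β (Sum.inr 3)), ← hmap (β (Sum.inr 4))]
      simp only [map_mul, ← ha', ← he1, ← he2, ← he3, ← he4, ← hc5]
      ring
    rw [h6, hUV, mul_zero]
  obtain ⟨r1, r2, r2', r3, r4, l1, r5⟩ := hL (RatFunc (RatFunc k)) U V hU hQ
  set Ψ : σ → RatFunc (RatFunc k) := Psi2 β U V with hΨ
  -- the surface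
  refine ⟨fun j => i2 k (Ψ j), ?_, ?_⟩
  · intro f hf
    rw [← i2_aeval, r1 f hf, map_zero]
  · have hi : ∃ i, Ψ i ≠ 0 := by
      by_contra hcon
      push Not at hcon
      have h0 : Ψ = 0 := funext hcon
      rw [h0] at r2 r3
      have h1 : ∀ f : MvPolynomial σ k, (aeval (0 : σ → RatFunc (RatFunc k)) f) =
          algebraMap (RatFunc k) (RatFunc (RatFunc k)) (algebraMap k (RatFunc k) (constantCoeff f)) := by
        intro f
        rw [MvPolynomial.aeval_zero, ← IsScalarTower.algebraMap_apply]
      rw [h1, h1] at r2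
      rw [h1] at r3
      apply hU
      have h2 : U ^ q = algebraMap (RatFunc k) (RatFunc (RatFunc k))
          (algebraMap k (RatFunc k) (constantCoeff τ₁) / algebraMap k (RatFunc k) (constantCoeff τ₀)) := by
        rw [map_div₀, eq_div_iff r3]
        exact r2.symm
      have h3 : IsAlgebraic (RatFunc k) (U ^ q) := by
        rw [h2]
        exact isAlgebraic_algebraMap _
      exact h3.of_pow hq
    obtain ⟨i, hi⟩ := hi
    have hinj : Function.Injective (i2 k) := (i2 k).injective
    have hyi : i2 k (Ψ i) ≠ 0 := fun h => hi (hinj (by rw [h, map_zero]))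
    refine ⟨i, hyi, ?_⟩
    set y : σ → FractionRing (MvPolynomial (Fin 2) k) := fun j => i2 k (Ψ j) with hy
    set A := IntermediateField.adjoin k (Set.range fun j => y j / y i) with hA
    have hye : ∀ f : MvPolynomial σ k, i2 k (aeval Ψ f) = aeval y f := fun f => i2_aeval k _ f
    have hpow : ∀ x : FractionRing (MvPolynomial (Fin 2) k), x ^ q ∈ A →
        x ∈ algebraicClosure A (FractionRing (MvPolynomial (Fin 2) k)) := by
      intro x hx
      rw [mem_algebraicClosure_iff]
      have h1 : IsAlgebraic A (x ^ q) := isAlgebraic_algebraMap (⟨x ^ q, hx⟩ : A)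
      exact h1.of_pow hq
    have hτ0 : aeval y τ₀ ≠ 0 := by
      rw [← hye]
      exact fun h => r3 (hinj (by rw [h, map_zero]))
    have hUA : i2 k U ∈ algebraicClosure A (FractionRing (MvPolynomial (Fin 2) k)) := by
      apply hpow
      have h1 := congrArg (i2 k) r2
      rw [map_mul, hye, hye, ← div_eq_iff hτ0, map_pow] at h1
      rw [← h1]
      exact ratio_mem' hyi hτ₁ hτ₀
    have hVA : i2 k V ∈ algebraicClosure A (FractionRing (MvPolynomial (Fin 2) k)) := by
      apply hpow
      have h1 := congrArg (i2 k) r2'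
      rw [map_mul, hye, hye, ← div_eq_iff hτ0, map_pow] at h1
      rw [← h1]
      exact ratio_mem' hyi hτ₂ hτ₀
    -- the field `k(t)`
    have hrel : ∀ l l', aeval y (φ l) * i0 k (β l' ^ q) = aeval y (φ l') * i0 k (β l ^ q) := by
      intro l l'
      have h1 := congrArg (i2 k) (r4 l l')
      rw [map_mul, map_mul, hye, hye, i2_K, i2_K] at h1
      exact h1
    have hl1 : aeval y (φ l1) ≠ 0 := by
      rw [← hye]
      exact fun h => r5 (hinj (by rw [h, map_zero]))
    have hβ1 : β l1 ≠ 0 := by
      intro h
      have h1 := hrel l1 (Sum.inr 5)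
      rw [h, zero_pow hq.ne', map_zero, mul_zero] at h1
      have h2 := (mul_eq_zero.1 h1).resolve_left hl1
      have h3 : β (Sum.inr 5) ^ q = 0 := (map_eq_zero_iff _ (i0 k).injective).1 h2
      exact h5 (pow_eq_zero_iff hq.ne' |>.1 h3)
    obtain ⟨l2, hl2⟩ : ∃ l2, ∀ κ : k, algebraMap k (RatFunc k) κ ≠ β l2 / β l1 := by
      by_contra hcon
      push Not at hcon
      choose κ hκ using hcon
      apply hcc
      refine ⟨c l1, fun l => κ l ^ q, fun l => ?_⟩
      apply hinjE
      apply hinj0
      rw [← hβq l, map_mul, map_mul, ← hβq l1, Polynomial.expand_C, map_pow]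
      have h1 := hκ l
      rw [eq_div_iff hβ1] at h1
      rw [← h1, mul_pow, mul_comm]
      congr 1
      rw [map_pow, ← Polynomial.algebraMap_eq, ← IsScalarTower.algebraMap_apply]
    have hρ : i0 k (β l2 / β l1) ∈ algebraicClosure A (FractionRing (MvPolynomial (Fin 2) k)) := by
      apply hpow
      have h1 := hrel l1 l2
      have h3 : i0 k (β l1 ^ q) ≠ 0 := fun h =>
        pow_ne_zero q hβ1 ((map_eq_zero_iff _ (i0 k).injective).1 h)
      have h2 : i0 k (β l2 / β l1) ^ q = aeval y (φ l2) / aeval y (φ l1) := by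
        rw [← map_pow, div_pow, map_div₀, div_eq_div_iff h3 hl1, mul_comm]
        exact h1
      rw [h2]
      exact ratio_mem' hyi (hφ l2) (hφ l1)
    have hall : ∀ r : RatFunc k,
        i0 k r ∈ algebraicClosure A (FractionRing (MvPolynomial (Fin 2) k)) :=
      fun r => all_of_one A (i0 k) hl2 hρ r
    have hevery : ∀ w : RatFunc (RatFunc k),
        i2 k w ∈ algebraicClosure A (FractionRing (MvPolynomial (Fin 2) k)) := by
      intro w
      have hw : w ∈ IntermediateField.adjoin (RatFunc k) {U, V} := by
        rw [hUVtop]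
        exact IntermediateField.mem_top
      refine IntermediateField.adjoin_induction (RatFunc k) (s := {U, V})
        (p := fun x _ => i2 k x ∈ algebraicClosure A (FractionRing (MvPolynomial (Fin 2) k)))
        ?_ ?_ ?_ ?_ ?_ hw
      · rintro x (rfl | rfl)
        · exact hUA
        · exact hVA
      · intro r
        rw [i2_K]
        exact hall r
      · intro x y _ _ h1 h2
        rw [map_add]
        exact add_mem h1 h2
      · intro x _ h1
        rw [map_inv₀]
        exact inv_mem h1
      · intro x y _ _ h1 h2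
        rw [map_mul]
        exact mul_mem h1 h2
    have htop : (algebraicClosure A (FractionRing (MvPolynomial (Fin 2) k))).restrictScalars k =
        ⊤ := by
      refine top_of_vars fun m => ?_
      fin_cases m
      · have h1 := hall (algebraMap (Polynomial k) (RatFunc k) Polynomial.X)
        rw [i0_alg, Polynomial.aeval_X] at h1
        exact h1
      · have h1 := hevery RatFunc.X
        rw [i2_X] at h1
        exact h1
    refine ⟨fun x => ?_⟩
    rw [← mem_algebraicClosure_iff]
    have h1 : x ∈ (algebraicClosure A (FractionRing (MvPolynomial (Fin 2) k))).restrictScalars k := by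
      rw [htop]
      exact IntermediateField.mem_top
    exact h1

end Pool.Agent.Helper97.QC
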