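import Pool.Agent.Helper97.CB.Defs

/-!
# Fibrations in rational curves in characteristic `p`: definitions
-/

set_option autoImplicit false

namespace Pool.Agent.Helper97.QC

open MvPolynomial Pool.Agent.Helper97.GM Pool.Agent.Helper97.RU Pool.Agent.Helper97.CB

universe u

variable {k : Type u} [Field k] {σ : Type} [Fintype σ]

/-- There are a conic bundle `U` over a variety of positive dimension and a dominant rational map from
`U` to `X`, generically bijective (purely inseparable): `E` is the function field of the base, `F` the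
function field of `U`, that of the smooth conic `v² + (a u + b) v + c u² + d u + e = 0` over `E`; `y` is
the generic point of `X`, in terms of `F`; the `q`-th powers of the elements of `F` are in the function
field of `X`. -/
def IsQuasiConic (q : ℕ) (I : Ideal (MvPolynomial σ k)) : Prop :=
  ∃ (E F : Type u) (_ : Field E) (_ : Field F) (_ : Algebra k E) (_ : Algebra k F)
    (_ : Algebra E F) (_ : IsScalarTower k E F) (a b c d e : E) (u v : F) (y : σ → F),
    (∃ t : E, Transcendental k t) ∧
    4 * c * e + a * b * d - c * b ^ 2 - d ^ 2 - e * a ^ 2 ≠ 0 ∧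
    Transcendental E u ∧
    v ^ 2 + (algebraMap E F a * u + algebraMap E F b) * v + algebraMap E F c * u ^ 2 +
      algebraMap E F d * u + algebraMap E F e = 0 ∧
    IntermediateField.adjoin E {u, v} = ⊤ ∧
    (∀ (f : MvPolynomial σ k) (m : ℕ), f.IsHomogeneous m → (f ∈ I ↔ aeval y f = 0)) ∧
    ∃ i, y i ≠ 0 ∧ ∀ z : F, z ^ q ∈ IntermediateField.adjoin k (Set.range fun j => y j / y i)

/-- `X` contains a unirational surface: there is a rational map from the plane to `X` whose image has
dimension two (`k(u₀, u₁)` is algebraic over the field generated by its affine coordinates). -/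
def HasUnirational (I : Ideal (MvPolynomial σ k)) : Prop :=
  ∃ y : σ → FractionRing (MvPolynomial (Fin 2) k), On I y ∧
    ∃ i, y i ≠ 0 ∧ Algebra.IsAlgebraic (IntermediateField.adjoin k (Set.range fun j => y j / y i))
      (FractionRing (MvPolynomial (Fin 2) k))

/-- The conics over the point with coordinates `b_l ^ q` of the base. -/
def ConicAtQ (q : ℕ) (I : Ideal (MvPolynomial σ k)) {M : ℕ} (φ : Idx σ M → MvPolynomial σ k)
    (τ₀ τ₁ τ₂ : MvPolynomial σ k) {K : Type u} [Field K] [Algebra k K] (b : Idx σ M → K) : Prop :=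
  b (Sum.inr 5) ≠ 0 ∧ disc2 b ≠ 0 ∧
    ∀ (L : Type u) [Field L] [Algebra k L] [Algebra K L] [IsScalarTower k K L] (U V : L),
      Transcendental K U → Q2 b U V = 0 →
      On I (Psi2 b U V) ∧ aeval (Psi2 b U V) τ₁ = U ^ q * aeval (Psi2 b U V) τ₀ ∧
      aeval (Psi2 b U V) τ₂ = V ^ q * aeval (Psi2 b U V) τ₀ ∧ aeval (Psi2 b U V) τ₀ ≠ 0 ∧
      (∀ l l', aeval (Psi2 b U V) (φ l) * algebraMap K L (b l' ^ q) =
        aeval (Psi2 b U V) (φ l') * algebraMap K L (b l ^ q)) ∧
      ∃ l, aeval (Psi2 b U V) (φ l) ≠ 0

end Pool.Agent.Helper97.QC
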