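import Pool.Agent.Helper97.RU.Chain
import Pool.Agent.Helper97.QC.Data
import Pool.Agent.Helper97.QC.Lift

/-!
# Smooth rationally chain connected varieties fibred in rational curves contain unirational surfaces
-/

set_option autoImplicit false

namespace Pool.Agent.Helper97.QC

open MvPolynomial Pool.Agent.Helper97.GM Pool.Agent.Helper97.RU Pool.Agent.Helper97.CB

universe u

variable {k : Type u} [Field k] {σ : Type} [Fintype σ]

private theorem form_zero {ι : Type*} [Fintype ι] {d : ℕ} {f : MvPolynomial ι k} (hf : f.IsHomogeneous d)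
    (hd : 1 ≤ d) : aeval (0 : ι → k) f = 0 := by
  have h := aeval_smul_form (0 : k) (0 : ι → k) hf
  simp only [Pi.zero_apply, mul_zero] at h
  rw [zero_pow (by omega), zero_mul] at h
  exact h

theorem mainQ [IsAlgClosed k] (p s : ℕ) [ExpChar k p] {I : Ideal (MvPolynomial σ k)} (hI : I.IsPrime) (hH : Hom I)
    (hsm : ∀ x : σ → k, x ≠ 0 → On I x → SmoothPt I x)
    (hrc : ∀ x x' : σ → k, x ≠ 0 → x' ≠ 0 → On I x → On I x' → Relation.ReflTransGen (Joined I) x x')
    (hcb : IsQuasiConic (p ^ s) I) : HasUnirational I := by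
  obtain ⟨M, d, d', δ, φ, τ₀, τ₁, τ₂, D, hφ, hτ₀, hτ₁, hτ₂, hD, hδ, hDI, ⟨l, l', hind⟩, hK⟩ :=
    dataQ p s hcb hH
  -- the degree of the `φ` is positive
  have hd : 1 ≤ d := by
    by_contra hcon
    have hd0 : d = 0 := by omega
    subst hd0
    have e : ∀ m, ∃ a : k, φ m = C a := fun m =>
      ⟨_, (totalDegree_eq_zero_iff_eq_C).1 (Nat.le_zero.1 (hφ m).totalDegree_le)⟩
    obtain ⟨a, ha⟩ := e l
    obtain ⟨a', ha'⟩ := e l'
    by_cases h0 : a = 0
    · apply hind 1 0 (Or.inl one_ne_zero)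
      rw [ha, ha', h0]
      simp
    · apply hind a' (-a) (Or.inr (neg_ne_zero.2 h0))
      rw [ha, ha', ← C_mul, ← C_mul, ← C_add, mul_comm a' a, neg_mul, add_neg_cancel, C_0]
      exact I.zero_mem
  -- a general point
  have hl : φ l ∉ I := by
    have := hind 1 0 (Or.inl one_ne_zero)
    rwa [C_1, one_mul, C_0, zero_mul, add_zero] at this
  have hprod : bind₁ φ D * φ l ∉ I := fun h => (hI.mem_or_mem h).elim hDI hl
  obtain ⟨x₀, hx₀, hx₀ne⟩ : ∃ x : σ → k, On I x ∧ aeval x (bind₁ φ D * φ l) ≠ 0 := by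
    by_contra hcon
    push Not at hcon
    exact hprod (mem_of_vanish hI hcon)
  rw [map_mul, aeval_bind₁] at hx₀ne
  have hD₀ := left_ne_zero_of_mul hx₀ne
  have hl₀ := right_ne_zero_of_mul hx₀ne
  have hx₀0 : x₀ ≠ 0 := by
    rintro rfl
    exact hl₀ (form_zero (hφ l) hd)
  have hφ₀ : (fun m => aeval x₀ (φ m)) ≠ 0 := fun h => hl₀ (congrFun h l)
  -- a second point
  obtain ⟨x₁, hx₁, hx₁ne⟩ : ∃ x : σ → k, On I x ∧
      aeval x (C (aeval x₀ (φ l')) * φ l + C (-aeval x₀ (φ l)) * φ l') ≠ 0 := by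
    by_contra hcon
    push Not at hcon
    exact hind _ _ (Or.inr (neg_ne_zero.2 hl₀)) (mem_of_vanish hI hcon)
  simp only [map_add, map_mul, algHom_C, Algebra.algebraMap_self, RingHom.id_apply] at hx₁ne
  have hφ₁ : (fun m => aeval x₁ (φ m)) ≠ 0 := by
    intro h
    apply hx₁ne
    have e1 : aeval x₁ (φ l) = 0 := congrFun h l
    have e2 : aeval x₁ (φ l') = 0 := congrFun h l'
    rw [e1, e2]
    simp
  have hx₁0 : x₁ ≠ 0 := by
    rintro rfl
    exact hφ₁ (funext fun m => form_zero (hφ m) hd)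
  have hne : ¬ Prp (fun m => aeval x₀ (φ m)) (fun m => aeval x₁ (φ m)) := by
    rintro ⟨c, hc, h⟩
    apply hx₁ne
    have e1 := h l
    have e2 := h l'
    simp only at e1 e2
    rw [e1, e2]
    ring
  obtain ⟨b, hb, ⟨c, hc, hb0⟩, hbc⟩ :=
    rc hI hH hsm hrc hφ hx₀ hx₁ hx₀0 hx₁0 hφ₀ hφ₁ hne
  refine liftQ p s hφ hτ₀ hτ₁ hτ₂ hD hK hb ?_ hbc
  intro h0
  have h1 := aeval_smul_form c (fun m => aeval x₀ (φ m)) hD
  have h2 : (fun m => (b m).eval 0) = fun m => c * aeval x₀ (φ m) := funext hb0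
  rw [← h2] at h1
  have h3 : (aeval b D).eval 0 = aeval (fun m => (b m).eval 0) D := by
    have h4 := semi_eval b 0 D
    exact h4
  rw [h0, Polynomial.eval_zero] at h3
  rw [← h3] at h1
  exact mul_ne_zero (pow_ne_zero _ hc) hD₀ h1.symm

end Pool.Agent.Helper97.QC
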